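import Mathlib
import Pool.Agent.H33.RicDefs
import Pool.Agent.H33.Ric1

namespace Pool.Agent.Results.MP_1a9240_co.Q1
open Pool.Agent.H33.Ric Classical Matrix

abbrev L1 := Fin 3
abbrev L2 := L1 × Fin 15
abbrev L3 := L2 × Fin 15
abbrev L4 := L3 × Fin 15
abbrev V := Unit ⊕ L1 ⊕ L2 ⊕ L3 ⊕ L4

def ch : V → V → Prop
  | .inl _, .inr (.inl _) => True
  | .inr (.inl i), .inr (.inr (.inl p)) => p.1 = i
  | .inr (.inr (.inl i)), .inr (.inr (.inr (.inl p))) => p.1 = i
  | .inr (.inr (.inr (.inl i))), .inr (.inr (.inr (.inr p))) => p.1 = i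
  | _, _ => False

def lv : V → ℕ
  | .inl _ => 0
  | .inr (.inl _) => 1
  | .inr (.inr (.inl _)) => 2
  | .inr (.inr (.inr (.inl _))) => 3
  | .inr (.inr (.inr (.inr _))) => 4

lemma ch_lv {a b : V} (h : ch a b) : lv b = lv a + 1 := by
  rcases a with a | a | a | a | a <;> rcases b with b | b | b | b | b <;>
    first | rfl | exact h.elim

def T : SimpleGraph V where
  Adj a b := ch a b ∨ ch b a
  symm := ⟨fun _ _ h => h.symm⟩
  loopless := ⟨fun a h => by rcases h with h | h <;> have := ch_lv h <;> omega⟩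

def c (k : ℕ) : ℝ := if k = 0 then 3 else if k < 4 then 15 else 0

lemma lv_le (a : V) : lv a ≤ 4 := by rcases a with a | a | a | a | a <;> simp [lv]

lemma s1 {α : Type} [Fintype α] [DecidableEq α] (i : α) (K : ℝ) :
    (∑ p : α × Fin 15, if p.1 = i then K else 0) = 15 * K := by
  rw [Fintype.sum_prod_type_right]
  simp

lemma eq (F : ℕ → ℝ) (x : V) : (∑ w, if T.Adj x w then F (lv w) else 0) =
    (if lv x = 0 then 0 else F (lv x - 1)) + c (lv x) * F (lv x + 1) := by
  rcases x with x | x | x | x | x <;>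
    simp only [Fintype.sum_sum_type, T, ch, lv, c, or_false, false_or, if_false, if_true,
      Finset.sum_const_zero, or_self, s1, Finset.sum_ite_eq, Finset.mem_univ] <;> simp

def r : V := .inl ()

lemma lv0 {x : V} : x = r ↔ lv x = 0 := by
  rcases x with x | x | x | x | x <;> simp [r, lv]

lemma degT (x : V) : (deg T x : ℝ) = (if lv x = 0 then 0 else 1) + c (lv x) := by
  rw [deg_eq, eq (fun _ => 1) x, mul_one]

lemma tree : T.IsTree := by
  rw [SimpleGraph.isTree_iff_connected_and_card]
  constructor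
  · have h1 : ∀ i : L1, T.Reachable r (.inr (.inl i)) := fun i =>
      SimpleGraph.Adj.reachable (Or.inl trivial)
    have h2 : ∀ i : L2, T.Reachable r (.inr (.inr (.inl i))) := fun i =>
      (h1 i.1).trans (SimpleGraph.Adj.reachable (Or.inl rfl))
    have h3 : ∀ i : L3, T.Reachable r (.inr (.inr (.inr (.inl i)))) := fun i =>
      (h2 i.1).trans (SimpleGraph.Adj.reachable (Or.inl rfl))
    have h4 : ∀ i : L4, T.Reachable r (.inr (.inr (.inr (.inr i)))) := fun i =>
      (h3 i.1).trans (SimpleGraph.Adj.reachable (Or.inl rfl))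
    rw [SimpleGraph.connected_iff_exists_forall_reachable]
    refine ⟨r, ?_⟩
    rintro (a | a | a | a | a)
    exacts [SimpleGraph.Reachable.refl _, h1 a, h2 a, h3 a, h4 a]
  · have h1 := T.sum_degrees_eq_twice_card_edges
    have h2 : ∀ x, (T.degree x : ℝ) = (if lv x = 0 then 0 else 1) + c (lv x) := by
      intro x; rw [← degT, deg_degree]
    have h3 : ((∑ x, T.degree x : ℕ) : ℝ) = 2 * 10848 := by
      push_cast
      simp only [h2, Fintype.sum_sum_type, lv, c]
      simp; norm_num
    rw [h1] at h3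
    have h4 : T.edgeFinset.card = 10848 := by
      have : (T.edgeFinset.card : ℝ) = 10848 := by push_cast at h3; linarith
      exact_mod_cast this
    rw [Nat.card_eq_fintype_card, ← SimpleGraph.edgeFinset_card, h4]
    simp

def Y {α : Type} (g : ℕ → ℝ) (l : α → ℕ) : Sym2 α → ℝ :=
  Sym2.lift ⟨fun a b => g (max (l a) (l b)), fun a b => by simp only [max_comm]⟩

lemma SY (g : ℕ → ℝ) (x : V) : (∑ w, if T.Adj x w then g (max (lv x) (lv w)) else 0) =
    (if lv x = 0 then 0 else g (lv x)) + c (lv x) * g (lv x + 1) := by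
  rw [eq (fun j => g (max (lv x) j))]
  simp

noncomputable def g1 (k : ℕ) : ℝ :=
  if k = 1 then 1 else if k = 2 then 0.83484 else if k = 3 then 0.2035951 else 0.01025361

lemma low : 1.05347 ≤ lmax T := by
  have hp : ∀ k, 0 < g1 k := fun k => by unfold g1; split_ifs <;> norm_num
  have hy : ∀ e : T.edgeSet, 0 < Y g1 lv e.1 := by
    rintro ⟨e, he⟩; induction e using Sym2.ind; exact hp _
  have key : ∀ p q (h : ch p q), 1.05347 * Y g1 lv s(p, q) ≤
      (ricci T *ᵥ fun e => Y g1 lv e.1) ⟨s(p, q), Or.inl h⟩ := by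
    intro p q h
    rw [mv T (Y g1 lv) p q (Or.inl h)]
    have h1 := ch_lv h
    have h2 := lv_le q
    simp only [Y, Sym2.lift_mk, SY, degT]
    simp only [h1]
    have h3 : lv p ≤ 3 := by omega
    generalize lv p = k at h3
    interval_cases k <;> norm_num [g1, c]
  exact le_lmax T (fun e => Y g1 lv e.1) 1.05347 (fun e => (hy e).le)
    (fun h0 => (hy ⟨s(r, .inr (.inl 0)), Or.inl trivial⟩).ne' (congrFun h0 _)) (by
      rintro ⟨e, he⟩
      induction e using Sym2.ind with
      | _ p q =>
        rcases he with h | h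
        · exact key p q h
        · have := key q p h
          simpa only [Sym2.eq_swap (a := q)] using this)

def lw : Option V → ℕ
  | none => 5
  | some x => lv x

noncomputable def g2 (k : ℕ) : ℝ :=
  if k = 1 then 1 else if k = 2 then 0.8368036 else if k = 3 then 0.2041494 else
    if k = 4 then 0.01028229 else 0.325605

lemma up : lmax (attach T r) ≤ 1.05343 := by
  have hp : ∀ k, 0 < g2 k := fun k => by unfold g2; split_ifs <;> norm_num
  have hy : ∀ e : (attach T r).edgeSet, 0 < Y g2 lw e.1 := by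
    rintro ⟨e, he⟩; induction e using Sym2.ind; exact hp _
  have dA : ∀ x, (deg (attach T r) (some x) : ℝ) = 1 + c (lv x) := by
    intro x; rw [deg_eq, sumA T r (fun _ => 1), ← deg_eq, degT]; simp only [lv0]; split_ifs <;> ring
  have dN : (deg (attach T r) none : ℝ) = 1 := by rw [deg_eq, sumN T r (fun _ => 1)]
  have key : ∀ p q (h : ch p q), (ricci (attach T r) *ᵥ fun e => Y g2 lw e.1)
      ⟨s(some p, some q), (Or.inl h : T.Adj p q)⟩ < 1.05343 * Y g2 lw s(some p, some q) := by
    intro p q h
    rw [mv (attach T r) (Y g2 lw) (some p) (some q) (Or.inl h : T.Adj p q), sumA, sumA]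
    have h1 := ch_lv h
    have h2 := lv_le q
    simp only [Y, Sym2.lift_mk, lw, SY, dA, lv0]
    simp only [h1]
    have h3 : lv p ≤ 3 := by omega
    generalize lv p = k at h3
    interval_cases k <;> norm_num [g2, c]
  have key2 : (ricci (attach T r) *ᵥ fun e => Y g2 lw e.1)
      ⟨s(none, some r), (rfl : r = r)⟩ < 1.05343 * Y g2 lw s(none, some r) := by
    rw [mv (attach T r) (Y g2 lw) none (some r) (rfl : r = r), sumA, sumN]
    simp only [Y, Sym2.lift_mk, lw, SY, dA, dN]
    simp only [lv0.1 rfl]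
    norm_num [g2, c]
  refine lmax_le _ (fun e => Y g2 lw e.1) _ (by norm_num) hy ?_
  rintro ⟨e, he⟩
  induction e using Sym2.ind with
  | _ p q =>
    rcases p with _ | p <;> rcases q with _ | q
    · exact he.elim
    · obtain rfl : q = r := he
      exact key2
    · obtain rfl : p = r := he
      simpa only [Sym2.eq_swap (a := none)] using key2
    · rcases he with h | h
      · exact key p q h
      · have := key q p h
        simpa only [Sym2.eq_swap (a := some q)] using this

theorem result : ∃ (V : Type) (_ : Fintype V) (T : SimpleGraph V) (v : V),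
    T.IsTree ∧ deg T v = 3 ∧ lmax (attach T v) < lmax T := by
  refine ⟨V, inferInstance, T, r, tree, ?_, lt_of_le_of_lt up (lt_of_lt_of_le (by norm_num) low)⟩
  have := degT r
  rw [lv0.1 rfl] at this
  norm_num [c] at this
  exact_mod_cast this

end Pool.Agent.Results.MP_1a9240_co.Q1
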